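import Mathlib

open MeasureTheory Filter Topology

/-!
# MP_38292b_an: the additive extension of an LU function need not be LU
-/

namespace Pool.Agent.Results.MP_38292b_an.NotLU

/-- Young class LU: pointwise limit of a nondecreasing sequence of upper semicontinuous functions. -/
def IsLU {Y : Type*} [TopologicalSpace Y] (h : Y → EReal) : Prop :=
  ∃ G : ℕ → Y → EReal, (∀ k, ∀ t : ℝ, IsOpen {y | G k y < (t : EReal)}) ∧
    (∀ y, Monotone fun k => G k y) ∧ ∀ y, Tendsto (fun k => G k y) atTop (𝓝 (h y))

/-- Metrizable Choquet simplices. -/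
structure IsMetrizableChoquetSimplex {V : Type*} [AddCommGroup V] [Module ℝ V] [TopologicalSpace V]
    [MeasurableSpace V] (K : Set V) : Prop where
  convex : Convex ℝ K
  compact : IsCompact K
  metrizable : TopologicalSpace.MetrizableSpace K
  unique_rep : ∀ v ∈ K, ∃! ξ : Measure V, IsProbabilityMeasure ξ ∧ ξ (K.extremePoints ℝ)ᶜ = 0 ∧
    ∀ l : V →L[ℝ] ℝ, ∫ x, l x ∂ξ = l v

/-- `v` is the convex combination with weights `w e > 0` of the distinct extreme points `e ∈ s`. -/
def IsRep {V : Type*} [AddCommGroup V] [Module ℝ V] (K : Set V)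
    (s : Finset (K.extremePoints ℝ)) (w : K.extremePoints ℝ → ℝ) (v : V) : Prop :=
  (∀ e ∈ s, 0 < w e) ∧ ∑ e ∈ s, w e = 1 ∧ ∑ e ∈ s, w e • (e : V) = v

/-- `F` is the extension of `f` by the additive rule. -/
def IsAdditiveExt {V : Type*} [AddCommGroup V] [Module ℝ V] (K : Set V)
    (f : K.extremePoints ℝ → ℕ∞) (F : K → ℕ∞) : Prop :=
  ∀ v : K, (∀ s w, IsRep K s w (v : V) → F v = ∑ e ∈ s, f e) ∧
    ((¬ ∃ s w, IsRep K s w (v : V)) → F v = ⊤)

/-! ### the example -/

/-- Cantor space. -/
abbrev Z := ℕ → Bool

/-- The index set of the coordinates. -/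
abbrev I := Finset ℕ ⊕ Finset ℕ

/-- The ambient space, a countable product of lines. -/
abbrev E := I → ℝ

/-- The dense countable set. -/
def d (n : Finset ℕ) : Z := fun i => decide (i ∈ n)

theorem d_inj : Function.Injective d := by
  intro m n h
  ext i
  have := congrFun h i
  simpa [d] using this

/-- The clopen sets. -/
def U (S : Finset ℕ) : Set Z := {z | ∀ i ∈ S, z i = true}

/-- Cylinders. -/
def cyl (k : ℕ) (z : Z) : Set Z := {z' | ∀ i < k, z' i = z i}

theorem U_clopen (S : Finset ℕ) : IsClopen (U S) := by
  have : U S = ⋂ i ∈ S, {z : Z | z i = true} := by ext z; simp [U]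
  rw [this]
  apply S.finite_toSet.isClopen_biInter
  intro i _
  exact (isClopen_discrete {true}).preimage (continuous_apply i)

theorem cyl_clopen (k : ℕ) (z : Z) : IsClopen (cyl k z) := by
  have : cyl k z = ⋂ i ∈ Finset.range k, {z' : Z | z' i = z i} := by ext z'; simp [cyl]
  rw [this]
  apply (Finset.range k).finite_toSet.isClopen_biInter
  intro i _
  exact (isClopen_discrete {z i}).preimage (continuous_apply i)

open Classical in
/-- The map onto the extreme points. -/
noncomputable def e (y : Z × Bool) : E
  | .inl S => (U S).indicator (fun _ => 1) y.1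
  | .inr n => if y.1 = d n then (if y.2 then 1 else -1) else 0

/-- The simplex. -/
def K : Set E := {v | ∃ m : ProbabilityMeasure Z, (∀ S, v (.inl S) = (m : Measure Z).real (U S)) ∧
  ∀ n, |v (.inr n)| ≤ (m : Measure Z).real {d n}}

/-! ### topology of K -/

theorem cont_clopen {A : Set Z} (hA : IsClopen A) :
    Continuous fun m : ProbabilityMeasure Z => (m : Measure Z).real A := by
  rw [continuous_iff_continuousAt]
  intro m
  have h := ProbabilityMeasure.tendsto_measure_of_null_frontier_of_tendsto' (μ := m)
    (tendsto_id (α := ProbabilityMeasure Z) (x := 𝓝 m)) (E := A) (by rw [hA.frontier_eq]; simp)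
  exact (ENNReal.tendsto_toReal (measure_ne_top _ _)).comp h

theorem cyl_iInter (z : Z) : ⋂ k, cyl k z = {z} := by
  ext z'
  simp only [Set.mem_iInter, cyl, Set.mem_ofPred_eq, Set.mem_singleton_iff]
  constructor
  · intro h
    ext i
    rw [h (i + 1) i (Nat.lt_succ_self i)]
  · rintro rfl k i _
    rfl

theorem le_point_iff (m : ProbabilityMeasure Z) (z : Z) (t : ℝ) :
    t ≤ (m : Measure Z).real {z} ↔ ∀ k, t ≤ (m : Measure Z).real (cyl k z) := by
  constructor
  · intro h k
    refine h.trans (measureReal_mono ?_)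
    rw [← cyl_iInter z]
    exact Set.iInter_subset _ k
  · intro h
    have hanti : Antitone (fun k => cyl k z) := by
      intro a b hab z' hz' i hi
      exact hz' i (lt_of_lt_of_le hi hab)
    have := tendsto_measure_iInter_atTop (μ := (m : Measure Z)) (s := fun k => cyl k z)
      (fun k => (cyl_clopen k z).1.measurableSet.nullMeasurableSet) hanti ⟨0, measure_ne_top _ _⟩
    rw [cyl_iInter] at this
    exact ge_of_tendsto' ((ENNReal.tendsto_toReal (measure_ne_top _ _)).comp this) h

theorem K_compact : IsCompact K := by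
  set P : Set (ProbabilityMeasure Z × (Finset ℕ → ℝ)) :=
    {q | ∀ n, |q.2 n| ≤ (q.1 : Measure Z).real {d n}} with hP
  have hPc : IsClosed P := by
    have : P = ⋂ n, ⋂ k, {q | |q.2 n| ≤ (q.1 : Measure Z).real (cyl k (d n))} := by
      ext q
      simp only [hP, Set.mem_ofPred_eq, Set.mem_iInter]
      exact forall_congr' fun n => le_point_iff _ _ _
    rw [this]
    refine isClosed_iInter fun n => isClosed_iInter fun k => ?_
    refine isClosed_le ?_ ((cont_clopen (cyl_clopen k (d n))).comp continuous_fst)
    exact ((continuous_apply n).comp continuous_snd).abs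
  have hPK : IsCompact P := by
    refine (isCompact_univ.prod (isCompact_univ_pi (fun _ : Finset ℕ => isCompact_Icc (a := (-1 : ℝ)) (b := 1)))).of_isClosed_subset hPc ?_
    rintro ⟨m, x⟩ h
    refine ⟨Set.mem_univ _, fun n _ => ?_⟩
    rw [Set.mem_Icc, ← abs_le]
    exact (h n).trans measureReal_le_one
  have hΨ : Continuous (fun q : ProbabilityMeasure Z × (Finset ℕ → ℝ) =>
      (Sum.elim (fun S => (q.1 : Measure Z).real (U S)) q.2 : E)) := by
    apply continuous_pi
    rintro (S | n)
    · exact (cont_clopen (U_clopen S)).comp continuous_fst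
    · exact (continuous_apply n).comp continuous_snd
  have : K = (fun q : ProbabilityMeasure Z × (Finset ℕ → ℝ) =>
      (Sum.elim (fun S => (q.1 : Measure Z).real (U S)) q.2 : E)) '' P := by
    ext v
    constructor
    · rintro ⟨m, h1, h2⟩
      refine ⟨(m, fun n => v (.inr n)), h2, ?_⟩
      ext (S | n)
      · exact (h1 S).symm
      · rfl
    · rintro ⟨q, hq, rfl⟩
      exact ⟨q.1, fun S => rfl, hq⟩
  rw [this]
  exact hPK.image hΨ

theorem K_convex : Convex ℝ K := by
  rintro v ⟨m, hm1, hm2⟩ v' ⟨m', hm1', hm2'⟩ a b ha hb hab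
  have hp : IsProbabilityMeasure (ENNReal.ofReal a • (m : Measure Z) + ENNReal.ofReal b • (m' : Measure Z)) := by
    constructor
    simp only [Measure.coe_add, Measure.coe_smul, Pi.add_apply, Pi.smul_apply, measure_univ, smul_eq_mul, mul_one]
    rw [← ENNReal.ofReal_add ha hb, hab, ENNReal.ofReal_one]
  have hval : ∀ A : Set Z, (ENNReal.ofReal a • (m : Measure Z) + ENNReal.ofReal b • (m' : Measure Z)).real A =
      a * (m : Measure Z).real A + b * (m' : Measure Z).real A := by
    intro A
    simp only [Measure.real, Measure.coe_add, Measure.coe_smul, Pi.add_apply, Pi.smul_apply, smul_eq_mul]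
    rw [ENNReal.toReal_add (ENNReal.mul_ne_top ENNReal.ofReal_ne_top (measure_ne_top _ _))
      (ENNReal.mul_ne_top ENNReal.ofReal_ne_top (measure_ne_top _ _)), ENNReal.toReal_mul,
      ENNReal.toReal_mul, ENNReal.toReal_ofReal ha, ENNReal.toReal_ofReal hb]
  refine ⟨⟨_, hp⟩, fun S => ?_, fun n => ?_⟩
  · show a • v (.inl S) + b • v' (.inl S) = (ENNReal.ofReal a • (m : Measure Z) + ENNReal.ofReal b • (m' : Measure Z)).real _
    rw [hval, hm1, hm1']
    simp
  · show |a • v (.inr n) + b • v' (.inr n)| ≤ (ENNReal.ofReal a • (m : Measure Z) + ENNReal.ofReal b • (m' : Measure Z)).real _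
    rw [hval]
    simp only [smul_eq_mul]
    calc |a * v (.inr n) + b * v' (.inr n)| ≤ |a * v (.inr n)| + |b * v' (.inr n)| := abs_add_le _ _
      _ = a * |v (.inr n)| + b * |v' (.inr n)| := by rw [abs_mul, abs_mul, abs_of_nonneg ha, abs_of_nonneg hb]
      _ ≤ _ := by
        have := hm2 n
        have := hm2' n
        gcongr

/-! ### measures on `Z × Bool` and the points of `K` -/

theorem meas_e : Measurable e := by
  classical
  rw [measurable_pi_iff]
  rintro (S | n)
  · exact ((measurable_const (a := (1 : ℝ))).indicator (U_clopen S).1.measurableSet).comp measurable_fst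
  · show Measurable fun y : Z × Bool => if y.1 = d n then (if y.2 then (1 : ℝ) else -1) else 0
    refine Measurable.ite ?_ (Measurable.ite ?_ measurable_const measurable_const) measurable_const
    · exact measurable_fst (measurableSet_singleton (d n))
    · exact measurable_snd (measurableSet_singleton true)

theorem e_bound (y : Z × Bool) (c : I) : |e y c| ≤ 1 := by
  rcases c with S | n
  · simp only [e, Set.indicator]
    split_ifs <;> simp
  · simp only [e]
    split_ifs <;> simp

theorem e_int (ν : Measure (Z × Bool)) [IsProbabilityMeasure ν] (c : I) : Integrable (fun y => e y c) ν := by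
  refine Integrable.of_bound (C := 1) ((measurable_pi_apply c).comp meas_e).aestronglyMeasurable ?_
  exact Eventually.of_forall fun y => e_bound y c

theorem int_inl (ν : Measure (Z × Bool)) [IsProbabilityMeasure ν] (S : Finset ℕ) :
    ∫ y, e y (.inl S) ∂ν = ν.real (Prod.fst ⁻¹' (U S)) := by
  have : (fun y => e y (.inl S)) = (Prod.fst ⁻¹' (U S) : Set (Z × Bool)).indicator (fun _ => (1 : ℝ)) := by
    ext y
    rfl
  rw [this, integral_indicator_const _ (measurable_fst (U_clopen S).1.measurableSet)]
  simp

theorem int_inr (ν : Measure (Z × Bool)) [IsProbabilityMeasure ν] (n : Finset ℕ) :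
    ∫ y, e y (.inr n) ∂ν = ν.real {(d n, true)} - ν.real {(d n, false)} := by
  have : (fun y => e y (.inr n)) = fun y => ({(d n, true)} : Set (Z × Bool)).indicator (fun _ => (1 : ℝ)) y
      - ({(d n, false)} : Set (Z × Bool)).indicator (fun _ => (1 : ℝ)) y := by
    ext ⟨z, b⟩
    simp only [e, Set.indicator, Set.mem_singleton_iff, Prod.mk.injEq]
    by_cases h : z = d n <;> cases b <;> simp [h]
  rw [this, integral_sub, integral_indicator_const _ (measurableSet_singleton _),
    integral_indicator_const _ (measurableSet_singleton _)]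
  · simp
  · exact (integrable_const (1 : ℝ)).indicator (measurableSet_singleton _)
  · exact (integrable_const (1 : ℝ)).indicator (measurableSet_singleton _)

theorem real_fiber (ν : Measure (Z × Bool)) [IsProbabilityMeasure ν] (z : Z) :
    ν.real (Prod.fst ⁻¹' {z}) = ν.real {(z, true)} + ν.real {(z, false)} := by
  rw [← measureReal_union (by simp) (measurableSet_singleton _)]
  congr 1
  ext ⟨w, b⟩
  cases b <;> simp

theorem Phi_mem (ν : Measure (Z × Bool)) [IsProbabilityMeasure ν] :
    (fun c => ∫ y, e y c ∂ν) ∈ K := by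
  have hp : IsProbabilityMeasure (ν.map Prod.fst) := Measure.isProbabilityMeasure_map measurable_fst.aemeasurable
  refine ⟨⟨_, hp⟩, fun S => ?_, fun n => ?_⟩
  · show ∫ y, e y (.inl S) ∂ν = (ν.map Prod.fst).real (U S)
    rw [int_inl, map_measureReal_apply measurable_fst (U_clopen S).1.measurableSet]
  · show |∫ y, e y (.inr n) ∂ν| ≤ (ν.map Prod.fst).real {d n}
    rw [int_inr, map_measureReal_apply measurable_fst (measurableSet_singleton _), real_fiber]
    have h1 : 0 ≤ ν.real {(d n, true)} := measureReal_nonneg
    have h2 : 0 ≤ ν.real {(d n, false)} := measureReal_nonneg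
    rw [abs_le]
    constructor <;> linarith

theorem Phi_surj {v : E} (hv : v ∈ K) : ∃ ν : Measure (Z × Bool), IsProbabilityMeasure ν ∧
    ∀ c, ∫ y, e y c ∂ν = v c := by
  classical
  obtain ⟨m, hm1, hm2⟩ := hv
  set g : Z → ℝ := fun z => if h : ∃ n, d n = z then v (.inr h.choose) / (m : Measure Z).real {d h.choose} else 0 with hg
  have hgd : ∀ n, g (d n) = v (.inr n) / (m : Measure Z).real {d n} := by
    intro n
    have h : ∃ k, d k = d n := ⟨n, rfl⟩
    have h2 : h.choose = n := d_inj h.choose_spec
    simp only [hg, dif_pos h]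
    rw [h2]
  have hg1 : ∀ z, |g z| ≤ 1 := by
    intro z
    by_cases h : ∃ n, d n = z
    · obtain ⟨n, rfl⟩ := h
      rw [hgd, abs_div, abs_of_nonneg (measureReal_nonneg (μ := (m : Measure Z)) (s := {d n}))]
      exact div_le_one_of_le₀ (hm2 n) measureReal_nonneg
    · simp [hg, h]
  have hgm : Measurable g := by
    have hc : (Set.range d).Countable := Set.countable_range d
    intro T _
    have : g ⁻¹' T = (g ⁻¹' T ∩ Set.range d) ∪ ((Set.range d)ᶜ ∩ {_z | (0 : ℝ) ∈ T}) := by
      ext z
      by_cases h : z ∈ Set.range d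
      · simp [h]
      · have : g z = 0 := by
          simp only [hg]
          rw [dif_neg]
          exact h
        simp [h, this]
    rw [this]
    refine ((hc.mono Set.inter_subset_right).measurableSet).union (hc.measurableSet.compl.inter ?_)
    exact MeasurableSet.const _
  set h1 : Z → ENNReal := fun z => ENNReal.ofReal ((1 + g z) / 2) with hh1
  set h2 : Z → ENNReal := fun z => ENNReal.ofReal ((1 - g z) / 2) with hh2
  have hsum : ∀ z, h1 z + h2 z = 1 := by
    intro z
    have := abs_le.1 (hg1 z)
    rw [hh1, hh2, ← ENNReal.ofReal_add (by linarith) (by linarith)]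
    rw [show (1 + g z) / 2 + (1 - g z) / 2 = 1 by ring, ENNReal.ofReal_one]
  have hm1' : Measurable h1 := by
    apply ENNReal.measurable_ofReal.comp
    exact (measurable_const.add hgm).div_const 2
  have hm2' : Measurable h2 := by
    apply ENNReal.measurable_ofReal.comp
    exact (measurable_const.sub hgm).div_const 2
  have mT : Measurable (fun z : Z => (z, true)) := measurable_id.prodMk measurable_const
  have mF : Measurable (fun z : Z => (z, false)) := measurable_id.prodMk measurable_const
  set ν : Measure (Z × Bool) := ((m : Measure Z).withDensity h1).map (fun z => (z, true)) +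
    ((m : Measure Z).withDensity h2).map (fun z => (z, false)) with hν
  have key : ∀ A : Set Z, MeasurableSet A → ν (Prod.fst ⁻¹' A) = (m : Measure Z) A := by
    intro A hA
    rw [hν, Measure.coe_add, Pi.add_apply, Measure.map_apply mT (measurable_fst hA),
      Measure.map_apply mF (measurable_fst hA)]
    have e1 : (fun z : Z => (z, true)) ⁻¹' (Prod.fst ⁻¹' A) = A := rfl
    have e2 : (fun z : Z => (z, false)) ⁻¹' (Prod.fst ⁻¹' A) = A := rfl
    rw [e1, e2, withDensity_apply _ hA, withDensity_apply _ hA, ← lintegral_add_left hm1']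
    simp [hsum]
  have hp : IsProbabilityMeasure ν := by
    constructor
    have := key Set.univ MeasurableSet.univ
    rw [Set.preimage_univ] at this
    rw [this]; simp
  have kT : ∀ n, ν.real {(d n, true)} = (1 + g (d n)) / 2 * (m : Measure Z).real {d n} := by
    intro n
    have : ν {(d n, true)} = h1 (d n) * (m : Measure Z) {d n} := by
      rw [hν, Measure.coe_add, Pi.add_apply, Measure.map_apply mT (measurableSet_singleton _),
        Measure.map_apply mF (measurableSet_singleton _)]
      have e1 : (fun z : Z => (z, true)) ⁻¹' {(d n, true)} = {d n} := by ext z; simp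
      have e2 : (fun z : Z => (z, false)) ⁻¹' {(d n, true)} = ∅ := by ext z; simp
      rw [e1, e2, withDensity_apply _ (measurableSet_singleton _)]
      simp [mul_comm]
    rw [Measure.real, this, ENNReal.toReal_mul, hh1, ENNReal.toReal_ofReal]
    · rfl
    · have := abs_le.1 (hg1 (d n)); linarith
  have kF : ∀ n, ν.real {(d n, false)} = (1 - g (d n)) / 2 * (m : Measure Z).real {d n} := by
    intro n
    have : ν {(d n, false)} = h2 (d n) * (m : Measure Z) {d n} := by
      rw [hν, Measure.coe_add, Pi.add_apply, Measure.map_apply mT (measurableSet_singleton _),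
        Measure.map_apply mF (measurableSet_singleton _)]
      have e1 : (fun z : Z => (z, true)) ⁻¹' {(d n, false)} = ∅ := by ext z; simp
      have e2 : (fun z : Z => (z, false)) ⁻¹' {(d n, false)} = {d n} := by ext z; simp
      rw [e1, e2, withDensity_apply _ (measurableSet_singleton _)]
      simp [mul_comm]
    rw [Measure.real, this, ENNReal.toReal_mul, hh2, ENNReal.toReal_ofReal]
    · rfl
    · have := abs_le.1 (hg1 (d n)); linarith
  refine ⟨ν, hp, ?_⟩
  rintro (S | n)
  · rw [int_inl, Measure.real, key _ (U_clopen S).1.measurableSet, hm1]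
    rfl
  · rw [int_inr, kT, kF, hgd]
    by_cases h0 : (m : Measure Z).real {d n} = 0
    · have := hm2 n
      rw [h0] at this
      rw [h0, abs_nonpos_iff.1 this]
      simp
    · field_simp
      ring

/-! ### injectivity -/

theorem gen_U : (inferInstance : MeasurableSpace Z) = MeasurableSpace.generateFrom (Set.range U) := by
  apply le_antisymm
  · refine iSup_le fun i => ?_
    rw [← measurable_iff_comap_le]
    apply @measurable_to_bool _ (MeasurableSpace.generateFrom (Set.range U))
    apply MeasurableSpace.measurableSet_generateFrom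
    refine ⟨{i}, ?_⟩
    ext z
    simp [U]
  · apply MeasurableSpace.generateFrom_le
    rintro _ ⟨S, rfl⟩
    exact (U_clopen S).1.measurableSet

theorem pi_U : IsPiSystem (Set.range U) := by
  rintro _ ⟨S, rfl⟩ _ ⟨T, rfl⟩ _
  refine ⟨S ∪ T, ?_⟩
  ext z
  simp only [U, Set.mem_ofPred_eq, Finset.mem_union, Set.mem_inter_iff]
  constructor
  · intro h
    exact ⟨fun i hi => h i (Or.inl hi), fun i hi => h i (Or.inr hi)⟩
  · rintro ⟨h1, h2⟩ i (hi | hi)
    · exact h1 i hi
    · exact h2 i hi

theorem meas_ext {m m' : Measure Z} [IsProbabilityMeasure m] [IsProbabilityMeasure m']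
    (h : ∀ S, m.real (U S) = m'.real (U S)) : m = m' := by
  apply ext_of_generate_finite (Set.range U) gen_U pi_U
  · rintro _ ⟨S, rfl⟩
    have := h S
    rwa [Measure.real, Measure.real, ENNReal.toReal_eq_toReal_iff' (measure_ne_top _ _) (measure_ne_top _ _)] at this
  · simp

theorem e_off {z : Z} (hz : z ∉ Set.range d) (b b' : Bool) : e (z, b) = e (z, b') := by
  ext (S | n)
  · rfl
  · have : z ≠ d n := fun h => hz ⟨n, h.symm⟩
    simp [e, this]

theorem Phi_inj {ν ν' : Measure (Z × Bool)} [IsProbabilityMeasure ν] [IsProbabilityMeasure ν']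
    (h : ∀ c, ∫ y, e y c ∂ν = ∫ y, e y c ∂ν') : ν.map e = ν'.map e := by
  have hp : IsProbabilityMeasure (ν.map Prod.fst) := Measure.isProbabilityMeasure_map measurable_fst.aemeasurable
  have hp' : IsProbabilityMeasure (ν'.map Prod.fst) := Measure.isProbabilityMeasure_map measurable_fst.aemeasurable
  have hfst : ν.map Prod.fst = ν'.map Prod.fst := by
    apply meas_ext
    intro S
    rw [map_measureReal_apply measurable_fst (U_clopen S).1.measurableSet,
      map_measureReal_apply measurable_fst (U_clopen S).1.measurableSet, ← int_inl, ← int_inl, h]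
  have hfst' : ∀ A : Set Z, MeasurableSet A → ν (Prod.fst ⁻¹' A) = ν' (Prod.fst ⁻¹' A) := by
    intro A hA
    rw [← Measure.map_apply measurable_fst hA, hfst, Measure.map_apply measurable_fst hA]
  have hpt : ∀ n b, ν {(d n, b)} = ν' {(d n, b)} := by
    intro n b
    have h1 := h (.inr n)
    rw [int_inr, int_inr] at h1
    have h2 : ν.real (Prod.fst ⁻¹' {d n}) = ν'.real (Prod.fst ⁻¹' {d n}) := by
      rw [Measure.real, Measure.real, hfst' _ (measurableSet_singleton _)]
    rw [real_fiber, real_fiber] at h2
    have h3 : ν.real {(d n, b)} = ν'.real {(d n, b)} := by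
      cases b <;> linarith
    rwa [Measure.real, Measure.real, ENNReal.toReal_eq_toReal_iff' (measure_ne_top _ _) (measure_ne_top _ _)] at h3
  have hD : MeasurableSet (Set.range d) := (Set.countable_range d).measurableSet
  ext A hA
  rw [Measure.map_apply meas_e hA, Measure.map_apply meas_e hA]
  have hB : MeasurableSet (e ⁻¹' A) := meas_e hA
  have hFD : MeasurableSet (Prod.fst ⁻¹' (Set.range d) : Set (Z × Bool)) := measurable_fst hD
  rw [← measure_inter_add_sdiff (e ⁻¹' A) hFD, ← measure_inter_add_sdiff (μ := ν') (e ⁻¹' A) hFD]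
  congr 1
  · have : e ⁻¹' A ∩ Prod.fst ⁻¹' (Set.range d) = ⋃ q : Finset ℕ × Bool, (e ⁻¹' A ∩ {(d q.1, q.2)}) := by
      ext ⟨z, b⟩
      simp only [Set.mem_inter_iff, Set.mem_preimage, Set.mem_range, Set.mem_iUnion, Set.mem_singleton_iff,
        Prod.mk.injEq, Prod.exists]
      constructor
      · rintro ⟨h1, n, rfl⟩
        exact ⟨n, b, h1, rfl, rfl⟩
      · rintro ⟨n, b', h1, h2, h3⟩
        exact ⟨h1, n, h2.symm⟩
    rw [this]
    have hdisj : Pairwise (Function.onFun Disjoint fun q : Finset ℕ × Bool => (e ⁻¹' A ∩ {(d q.1, q.2)})) := by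
      intro q q' hq
      refine Set.disjoint_left.2 ?_
      rintro y ⟨_, h1⟩ ⟨_, h2⟩
      rw [Set.mem_singleton_iff] at h1 h2
      apply hq
      rw [h1] at h2
      have h3 := Prod.mk.inj h2
      exact Prod.ext (d_inj h3.1) h3.2
    have hm : ∀ q : Finset ℕ × Bool, MeasurableSet (e ⁻¹' A ∩ {(d q.1, q.2)}) := fun q =>
      hB.inter (measurableSet_singleton _)
    rw [measure_iUnion hdisj hm, measure_iUnion hdisj hm]
    congr 1
    ext q
    by_cases hq : (d q.1, q.2) ∈ e ⁻¹' A
    · rw [Set.inter_eq_right.2 (Set.singleton_subset_iff.2 hq)]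
      exact hpt _ _
    · rw [Set.inter_singleton_eq_empty.2 hq]
      simp
  · have : e ⁻¹' A \ Prod.fst ⁻¹' (Set.range d) = Prod.fst ⁻¹' ({z | e (z, true) ∈ A} \ Set.range d) := by
      ext ⟨z, b⟩
      simp only [Set.mem_sdiff, Set.mem_preimage, Set.mem_ofPred_eq]
      constructor
      · rintro ⟨h1, h2⟩
        exact ⟨by rwa [e_off h2 true b], h2⟩
      · rintro ⟨h1, h2⟩
        exact ⟨by rwa [e_off h2 b true], h2⟩
    rw [this]
    apply hfst'
    refine MeasurableSet.diff ?_ hD
    exact (meas_e.comp (measurable_id.prodMk measurable_const)) hA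

/-! ### the section and the extreme points -/

open Classical in
/-- A measurable section of `e`. -/
noncomputable def sec (v : E) : Z × Bool :=
  (fun i => decide (v (.inl {i}) = 1), decide (∀ n, 0 ≤ v (.inr n)))

theorem meas_sec : Measurable sec := by
  classical
  apply Measurable.prodMk
  · rw [measurable_pi_iff]
    intro i
    apply measurable_to_bool
    have : (fun v : E => decide (v (.inl {i}) = 1)) ⁻¹' {true} = (fun v : E => v (.inl {i})) ⁻¹' {1} := by
      ext v; simp
    rw [this]
    exact measurable_pi_apply _ (measurableSet_singleton _)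
  · apply measurable_to_bool
    have : (fun v : E => decide (∀ n, 0 ≤ v (.inr n))) ⁻¹' {true} = ⋂ n, (fun v : E => v (.inr n)) ⁻¹' (Set.Ici 0) := by
      ext v; simp
    rw [this]
    exact MeasurableSet.iInter fun n => measurable_pi_apply _ measurableSet_Ici

theorem e_sec (y : Z × Bool) : e (sec (e y)) = e y := by
  classical
  obtain ⟨z, b⟩ := y
  have h1 : (sec (e (z, b))).1 = z := by
    ext i
    simp only [sec, e, Set.indicator, U]
    cases h : z i <;> simp [h]
  ext (S | n)
  · simp only [e, h1]
  · simp only [e, h1]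
    by_cases hz : z = d n
    · simp only [hz, if_true]
      have : (sec (e (d n, b))).2 = b := by
        simp only [sec]
        cases b
        · rw [decide_eq_false_iff_not]
          intro hc
          have := hc n
          simp [e] at this
          linarith
        · rw [decide_eq_true_iff]
          intro k
          simp only [e]
          split_ifs <;> norm_num
      rw [this]
    · simp [hz]

/-- The range of `e` is Borel. -/
theorem meas_range : MeasurableSet (Set.range e) := by
  have : Set.range e = {v | e (sec v) = v} := by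
    ext v
    constructor
    · rintro ⟨y, rfl⟩
      exact e_sec y
    · intro h
      exact ⟨sec v, h⟩
  rw [this]
  exact measurableSet_eq_fun (meas_e.comp meas_sec) measurable_id

theorem e_mem (y : Z × Bool) : e y ∈ K := by
  have := Phi_mem (Measure.dirac y)
  simpa using this

/-- mixtures -/
theorem mix {a b : ℝ} (ha : 0 < a) (hb : 0 < b) (hab : a + b = 1) (ν1 ν2 : Measure (Z × Bool))
    [IsProbabilityMeasure ν1] [IsProbabilityMeasure ν2] :
    IsProbabilityMeasure (ENNReal.ofReal a • ν1 + ENNReal.ofReal b • ν2) ∧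
    ∀ c, ∫ y, e y c ∂(ENNReal.ofReal a • ν1 + ENNReal.ofReal b • ν2) =
      a * ∫ y, e y c ∂ν1 + b * ∫ y, e y c ∂ν2 := by
  refine ⟨⟨?_⟩, fun c => ?_⟩
  · simp only [Measure.coe_add, Measure.coe_smul, Pi.add_apply, Pi.smul_apply, measure_univ, smul_eq_mul, mul_one]
    rw [← ENNReal.ofReal_add ha.le hb.le, hab, ENNReal.ofReal_one]
  · rw [integral_add_measure ((e_int ν1 c).smul_measure ENNReal.ofReal_ne_top)
      ((e_int ν2 c).smul_measure ENNReal.ofReal_ne_top), integral_smul_measure, integral_smul_measure,
      ENNReal.toReal_ofReal ha.le, ENNReal.toReal_ofReal hb.le]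
    rfl

theorem e_extreme (y : Z × Bool) : e y ∈ K.extremePoints ℝ := by
  rw [mem_extremePoints_iff_left]
  refine ⟨e_mem y, fun v1 hv1 v2 hv2 hseg => ?_⟩
  obtain ⟨a, b, ha, hb, hab, hv⟩ := hseg
  obtain ⟨ν1, hp1, h1⟩ := Phi_surj hv1
  obtain ⟨ν2, hp2, h2⟩ := Phi_surj hv2
  obtain ⟨hp, hm⟩ := mix ha hb hab ν1 ν2
  have heq := Phi_inj (ν := ENNReal.ofReal a • ν1 + ENNReal.ofReal b • ν2) (ν' := Measure.dirac y) (by
    intro c
    rw [hm, h1, h2, integral_dirac, ← hv]
    rfl)
  have hz : ν1 (e ⁻¹' {e y}ᶜ) = 0 := by
    have this : (ENNReal.ofReal a • ν1 + ENNReal.ofReal b • ν2).map e {e y}ᶜ =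
        (Measure.dirac y).map e {e y}ᶜ := by rw [heq]
    rw [Measure.map_apply meas_e (measurableSet_singleton _).compl,
      Measure.map_apply meas_e (measurableSet_singleton _).compl, Measure.dirac_apply] at this
    simp only [Measure.coe_add, Measure.coe_smul, Pi.add_apply, Pi.smul_apply, smul_eq_mul] at this
    have h0 : (e ⁻¹' {e y}ᶜ).indicator (1 : Z × Bool → ENNReal) y = 0 := by
      apply Set.indicator_of_notMem
      simp
    rw [h0] at this
    have h3 := (add_eq_zero.1 this).1
    rcases mul_eq_zero.1 h3 with h4 | h4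
    · exfalso
      rw [ENNReal.ofReal_eq_zero] at h4
      linarith
    · exact h4
  ext c
  rw [← h1 c]
  have hae : ∀ᵐ w ∂ν1, e w c = e y c := by
    rw [ae_iff]
    refine measure_mono_null ?_ hz
    intro w hw
    simp only [Set.mem_ofPred_eq] at hw
    simp only [Set.mem_preimage, Set.mem_compl_iff, Set.mem_singleton_iff]
    intro hc
    exact hw (by rw [hc])
  rw [integral_congr_ae hae]
  simp

theorem extreme_range {v : E} (hv : v ∈ K.extremePoints ℝ) : v ∈ Set.range e := by
  obtain ⟨hvK, hext⟩ := mem_extremePoints_iff_left.1 hv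
  obtain ⟨ν, hp, h⟩ := Phi_surj hvK
  have hpe : IsProbabilityMeasure (ν.map e) := Measure.isProbabilityMeasure_map meas_e.aemeasurable
  -- zero-one law
  have zo : ∀ A : Set E, MeasurableSet A → ν (e ⁻¹' A) = 0 ∨ ν (e ⁻¹' A)ᶜ = 0 := by
    intro A hA
    by_contra hc
    push Not at hc
    obtain ⟨h1, h2⟩ := hc
    set B := e ⁻¹' A with hB
    have hBm : MeasurableSet B := meas_e hA
    have hc1 : IsProbabilityMeasure (ProbabilityTheory.cond ν B) := ProbabilityTheory.cond_isProbabilityMeasure h1
    have hc2 : IsProbabilityMeasure (ProbabilityTheory.cond ν Bᶜ) := ProbabilityTheory.cond_isProbabilityMeasure h2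
    have ha : 0 < ν.real B := by
      rw [Measure.real]; exact ENNReal.toReal_pos h1 (measure_ne_top _ _)
    have hb : 0 < ν.real Bᶜ := by
      rw [Measure.real]; exact ENNReal.toReal_pos h2 (measure_ne_top _ _)
    have hab : ν.real B + ν.real Bᶜ = 1 := by
      rw [measureReal_add_measureReal_compl hBm]; simp
    have hmix : ENNReal.ofReal (ν.real B) • ProbabilityTheory.cond ν B +
        ENNReal.ofReal (ν.real Bᶜ) • ProbabilityTheory.cond ν Bᶜ = ν := by
      rw [Measure.real, Measure.real, ENNReal.ofReal_toReal (measure_ne_top _ _),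
        ENNReal.ofReal_toReal (measure_ne_top _ _)]
      rw [ProbabilityTheory.cond, ProbabilityTheory.cond, smul_smul, smul_smul,
        ENNReal.mul_inv_cancel h1 (measure_ne_top _ _), ENNReal.mul_inv_cancel h2 (measure_ne_top _ _),
        one_smul, one_smul, Measure.restrict_add_restrict_compl hBm]
    obtain ⟨_, hm⟩ := mix ha hb hab (ProbabilityTheory.cond ν B) (ProbabilityTheory.cond ν Bᶜ)
    rw [hmix] at hm
    have hv1 := hext _ (Phi_mem (ProbabilityTheory.cond ν B)) _ (Phi_mem (ProbabilityTheory.cond ν Bᶜ))
      ⟨ν.real B, ν.real Bᶜ, ha, hb, hab, by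
        ext c
        simp only [Pi.add_apply, Pi.smul_apply, smul_eq_mul]
        rw [← hm, h]⟩
    have heq := Phi_inj (ν := ProbabilityTheory.cond ν B) (ν' := ν) (by
      intro c
      rw [h c]
      exact congrFun hv1 c)
    have this : (ProbabilityTheory.cond ν B).map e Aᶜ = ν.map e Aᶜ := by rw [heq]
    rw [Measure.map_apply meas_e hA.compl, Measure.map_apply meas_e hA.compl, Set.preimage_compl, ← hB] at this
    rw [ProbabilityTheory.cond_apply hBm, Set.inter_compl_self, measure_empty, mul_zero] at this
    exact h2 this.symm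
  have hco : ∀ c, ∀ᵐ y ∂ν, e y c = v c := by
    intro c
    have hcase : ∀ t : ℝ, (∀ᵐ y ∂ν, e y c = t) → ∀ᵐ y ∂ν, e y c = v c := by
      intro t ht
      have : v c = t := by
        rw [← h c, integral_congr_ae ht]; simp
      rw [this]; exact ht
    have hA : ∀ t : ℝ, (∀ᵐ y ∂ν, e y c = t) ∨ ν {y | e y c = t} = 0 := by
      intro t
      rcases zo {w | w c = t} (measurableSet_eq_fun (measurable_pi_apply c) measurable_const) with h1 | h1
      · right; exact h1
      · left; exact h1
    rcases hA 0 with h0 | h0
    · exact hcase 0 h0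
    rcases hA 1 with h1 | h1
    · exact hcase 1 h1
    rcases hA (-1) with h2 | h2
    · exact hcase (-1) h2
    exfalso
    have huniv : (Set.univ : Set (Z × Bool)) ⊆ {y | e y c = 0} ∪ {y | e y c = 1} ∪ {y | e y c = -1} := by
      intro y _
      simp only [Set.mem_union, Set.mem_ofPred_eq]
      rcases c with S | n
      · simp only [e, Set.indicator]
        split_ifs <;> simp
      · simp only [e]
        split_ifs <;> simp
    have := measure_mono_null huniv (measure_union_null (measure_union_null h0 h1) h2)
    simp at this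
  have hall : ∀ᵐ y ∂ν, ∀ c, e y c = v c := ae_all_iff.2 hco
  obtain ⟨y, hy⟩ := hall.exists
  exact ⟨y, funext hy⟩

theorem extreme_eq : K.extremePoints ℝ = Set.range e := by
  ext v
  constructor
  · exact extreme_range
  · rintro ⟨y, rfl⟩
    exact e_extreme y

/-! ### Choquet simplex -/

theorem clm_finite (l : E →L[ℝ] ℝ) : ∃ s : Finset I, ∀ x : E, l x = ∑ i ∈ s, x i * l (Pi.single i 1) := by
  classical
  have hU : l ⁻¹' (Metric.ball 0 1) ∈ 𝓝 (0 : E) := by
    apply l.continuous.continuousAt.preimage_mem_nhds
    rw [map_zero]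
    exact Metric.ball_mem_nhds _ one_pos
  rw [nhds_pi, Filter.mem_pi'] at hU
  obtain ⟨s, t, ht, hs⟩ := hU
  have key : ∀ x : E, (∀ i ∈ s, x i = 0) → l x = 0 := by
    intro x hx
    by_contra hc
    have h1 : ((2 / l x) • x) ∈ l ⁻¹' (Metric.ball 0 1) := by
      apply hs
      intro i hi
      have : ((2 / l x) • x) i = (0 : E) i := by simp [hx i hi]
      rw [this]
      exact mem_of_mem_nhds (ht i)
    simp only [Set.mem_preimage, map_smul, smul_eq_mul, Metric.mem_ball, dist_zero_right, Real.norm_eq_abs] at h1
    rw [div_mul_cancel₀ _ hc] at h1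
    norm_num at h1
  refine ⟨s, fun x => ?_⟩
  have := key (x - ∑ i ∈ s, x i • (Pi.single i 1 : E)) (by
    intro j hj
    simp only [Pi.sub_apply, Finset.sum_apply, Pi.smul_apply, smul_eq_mul]
    rw [Finset.sum_eq_single j]
    · simp
    · intro i _ hij
      rw [Pi.single_eq_of_ne hij.symm]; simp
    · intro hj'; exact absurd hj hj')
  rw [map_sub, sub_eq_zero] at this
  rw [this, map_sum]
  simp

theorem simplex : IsMetrizableChoquetSimplex K where
  convex := K_convex
  compact := K_compact
  metrizable := inferInstance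
  unique_rep := by
    intro v hv
    obtain ⟨ν, hp, h⟩ := Phi_surj hv
    have hpe : IsProbabilityMeasure (ν.map e) := Measure.isProbabilityMeasure_map meas_e.aemeasurable
    refine ⟨ν.map e, ⟨hpe, ?_, ?_⟩, ?_⟩
    · rw [extreme_eq, Measure.map_apply meas_e meas_range.compl]
      have : e ⁻¹' (Set.range e)ᶜ = ∅ := by ext y; simp
      rw [this, measure_empty]
    · intro l
      obtain ⟨s, hs⟩ := clm_finite l
      have hml : AEStronglyMeasurable (fun x : E => l x) (ν.map e) := by
        have : Measurable (fun x : E => l x) := l.continuous.measurable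
        exact this.aestronglyMeasurable
      rw [integral_map meas_e.aemeasurable hml]
      rw [integral_congr_ae (Eventually.of_forall fun y => hs (e y)), hs v]
      rw [integral_finsetSum _ (fun i _ => (e_int ν i).mul_const _)]
      apply Finset.sum_congr rfl
      intro i _
      rw [integral_mul_const, h i]
    · rintro ξ ⟨hξp, hξ0, hξl⟩
      rw [extreme_eq] at hξ0
      have hp' : IsProbabilityMeasure (ξ.map sec) := Measure.isProbabilityMeasure_map meas_sec.aemeasurable
      have hae : ∀ᵐ x ∂ξ, e (sec x) = x := by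
        have : ∀ᵐ x ∂ξ, x ∈ Set.range e := by
          rw [ae_iff]
          exact hξ0
        filter_upwards [this] with x hx
        obtain ⟨y, rfl⟩ := hx
        exact e_sec y
      have hmap : (ξ.map sec).map e = ξ := by
        rw [Measure.map_map meas_e meas_sec]
        have : ξ.map (e ∘ sec) = ξ.map id := Measure.map_congr hae
        rw [this, Measure.map_id]
      have := Phi_inj (ν := ξ.map sec) (ν' := ν) (by
        intro c
        rw [h c]
        have hl := hξl (ContinuousLinearMap.proj c)
        simp only [ContinuousLinearMap.proj_apply] at hl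
        rw [← hl, integral_map (f := fun y => e y c) meas_sec.aemeasurable (((measurable_pi_apply c).comp meas_e).aestronglyMeasurable)]
        apply integral_congr_ae
        filter_upwards [hae] with x hx
        rw [hx])
      rw [hmap] at this
      exact this

/-! ### uniqueness of finite representations and existence of the additive extension -/

theorem rep_unique {V : Type*} [AddCommGroup V] [Module ℝ V] [TopologicalSpace V]
    [MeasurableSpace V] [MeasurableSingletonClass V] {K : Set V} (hK : IsMetrizableChoquetSimplex K)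
    {v : V} {s s' : Finset (K.extremePoints ℝ)} {w w' : K.extremePoints ℝ → ℝ}
    (h : IsRep K s w v) (h' : IsRep K s' w' v) : s = s' := by
  classical
  -- the representing measure
  have key : ∀ (s : Finset (K.extremePoints ℝ)) (w : K.extremePoints ℝ → ℝ), IsRep K s w v →
      (IsProbabilityMeasure (∑ e ∈ s, ENNReal.ofReal (w e) • Measure.dirac (e : V)) ∧
      (∑ e ∈ s, ENNReal.ofReal (w e) • Measure.dirac (e : V)) (K.extremePoints ℝ)ᶜ = 0 ∧
      ∀ l : V →L[ℝ] ℝ, ∫ x, l x ∂(∑ e ∈ s, ENNReal.ofReal (w e) • Measure.dirac (e : V)) = l v) := by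
    rintro s w ⟨h1, h2, h3⟩
    refine ⟨⟨?_⟩, ?_, ?_⟩
    · simp only [Measure.coe_finsetSum, Finset.sum_apply, Measure.coe_smul, Pi.smul_apply, measure_univ,
        smul_eq_mul, mul_one]
      rw [← ENNReal.ofReal_sum_of_nonneg (fun e he => (h1 e he).le), h2, ENNReal.ofReal_one]
    · simp only [Measure.coe_finsetSum, Finset.sum_apply, Measure.coe_smul, Pi.smul_apply, smul_eq_mul]
      apply Finset.sum_eq_zero
      intro e _
      rw [Measure.dirac_apply, Set.indicator_of_notMem (by simp), mul_zero]
    · intro l
      rw [integral_finsetSum_measure]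
      · simp only [integral_smul_measure, integral_dirac]
        rw [← h3, map_sum]
        apply Finset.sum_congr rfl
        intro e he
        rw [ENNReal.toReal_ofReal (h1 e he).le, map_smul]
      · intro e _
        apply Integrable.smul_measure _ ENNReal.ofReal_ne_top
        exact integrable_dirac (by simp)
  have hv : v ∈ K := by
    obtain ⟨h1, h2, h3⟩ := h
    rw [← h3]
    exact hK.convex.sum_mem (fun e he => (h1 e he).le) h2 (fun e _ => e.2.1)
  have heq := (hK.unique_rep v hv).unique (key s w h) (key s' w' h')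
  have sub : ∀ (s s' : Finset (K.extremePoints ℝ)) (w w' : K.extremePoints ℝ → ℝ), IsRep K s w v →
      (∑ e ∈ s, ENNReal.ofReal (w e) • Measure.dirac (e : V)) = (∑ e ∈ s', ENNReal.ofReal (w' e) • Measure.dirac (e : V)) →
      s ⊆ s' := by
    intro s s' w w' hr he e hes
    by_contra hc
    have h1 : (∑ e ∈ s', ENNReal.ofReal (w' e) • Measure.dirac (e : V)) {(e : V)} = 0 := by
      simp only [Measure.coe_finsetSum, Finset.sum_apply, Measure.coe_smul, Pi.smul_apply, smul_eq_mul]
      apply Finset.sum_eq_zero
      intro e' he'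
      rw [Measure.dirac_apply, Set.indicator_of_notMem, mul_zero]
      intro h
      rw [Set.mem_singleton_iff] at h
      exact hc (by rwa [← Subtype.ext h])
    rw [← he] at h1
    simp only [Measure.coe_finsetSum, Finset.sum_apply, Measure.coe_smul, Pi.smul_apply, smul_eq_mul] at h1
    have h2 := (Finset.sum_eq_zero_iff.1 h1) e hes
    rw [Measure.dirac_apply, Set.indicator_of_mem (Set.mem_singleton _)] at h2
    simp only [Pi.one_apply, mul_one, ENNReal.ofReal_eq_zero] at h2
    exact absurd (hr.1 e hes) (not_lt.2 h2)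
  exact Finset.Subset.antisymm (sub s s' w w' h heq) (sub s' s w' w h' heq.symm)

theorem exists_ext {V : Type*} [AddCommGroup V] [Module ℝ V] [TopologicalSpace V]
    [MeasurableSpace V] [MeasurableSingletonClass V] {K : Set V} (hK : IsMetrizableChoquetSimplex K)
    (f : K.extremePoints ℝ → ℕ∞) : ∃ F, IsAdditiveExt K f F := by
  classical
  refine ⟨fun v => if h : ∃ s w, IsRep K s w (v : V) then ∑ e ∈ h.choose, f e else ⊤, fun v => ⟨?_, ?_⟩⟩
  · intro s w hr
    have h : ∃ s w, IsRep K s w (v : V) := ⟨s, w, hr⟩
    simp only [dif_pos h]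
    obtain ⟨w', hw'⟩ := h.choose_spec
    rw [rep_unique hK hw' hr]
  · intro h
    simp only [dif_neg h]

/-! ### the function and its extension -/

open Classical in
/-- The function on the extreme points: `1` at the points with a nonzero second component, else `3`. -/
noncomputable def f (v : K.extremePoints ℝ) : ℕ∞ := if ∃ n, (v : E) (.inr n) ≠ 0 then 1 else 3

/-- `(δ_z, 0)` -/
noncomputable def phi (z : Z) : E
  | .inl S => (U S).indicator (fun _ => 1) z
  | .inr _ => 0

theorem phi_cont : Continuous phi := by
  apply continuous_pi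
  rintro (S | n)
  · exact continuous_indicator (by simp [(U_clopen S).frontier_eq]) continuous_const.continuousOn
  · exact continuous_const

theorem phi_mem (z : Z) : phi z ∈ K := by
  refine ⟨⟨Measure.dirac z, inferInstance⟩, fun S => ?_, fun n => ?_⟩
  · show (U S).indicator (fun _ => (1 : ℝ)) z = (Measure.dirac z).real (U S)
    rw [Measure.real, Measure.dirac_apply]
    by_cases h : z ∈ U S <;> simp [h]
  · show |(0 : ℝ)| ≤ _
    rw [abs_zero]; exact measureReal_nonneg

theorem phi_off {z : Z} (hz : z ∉ Set.range d) : phi z = e (z, true) := by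
  ext (S | n)
  · rfl
  · have : z ≠ d n := fun h => hz ⟨n, h.symm⟩
    simp [e, phi, this]

theorem phi_mid (n : Finset ℕ) : phi (d n) = (1 / 2 : ℝ) • e (d n, true) + (1 / 2 : ℝ) • e (d n, false) := by
  ext (S | k)
  · simp only [e, phi, Pi.add_apply, Pi.smul_apply, smul_eq_mul]
    ring
  · simp only [e, phi, Pi.add_apply, Pi.smul_apply, smul_eq_mul]
    split_ifs <;> simp_all

/-- extreme points -/
noncomputable def ee (y : Z × Bool) : K.extremePoints ℝ := ⟨e y, e_extreme y⟩

theorem F_off {F : K → ℕ∞} (hF : IsAdditiveExt K f F) {z : Z} (hz : z ∉ Set.range d) :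
    F ⟨phi z, phi_mem z⟩ = 3 := by
  classical
  have := (hF ⟨phi z, phi_mem z⟩).1 {ee (z, true)} (fun _ => 1) ⟨by simp, by simp, by
    simp [ee, phi_off hz]⟩
  rw [this, Finset.sum_singleton, f, if_neg]
  push Not
  intro n
  have : z ≠ d n := fun h => hz ⟨n, h.symm⟩
  simp [ee, e, this]

theorem F_on {F : K → ℕ∞} (hF : IsAdditiveExt K f F) (n : Finset ℕ) :
    F ⟨phi (d n), phi_mem (d n)⟩ = 2 := by
  classical
  have hne : ee (d n, true) ≠ ee (d n, false) := by
    intro h
    have h1 := congrArg Subtype.val h
    have h2 := congrFun h1 (.inr n)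
    simp [ee, e] at h2
    norm_num at h2
  have := (hF ⟨phi (d n), phi_mem (d n)⟩).1 {ee (d n, true), ee (d n, false)} (fun _ => 1 / 2)
    ⟨by simp, by rw [Finset.sum_pair hne]; norm_num, by
      rw [Finset.sum_pair hne]
      exact (phi_mid n).symm⟩
  rw [this, Finset.sum_pair hne, f, f, if_pos, if_pos]
  · norm_num
  · exact ⟨n, by simp [ee, e]⟩
  · exact ⟨n, by simp [ee, e]⟩

/-- embedding into the extended reals -/
noncomputable def toE (n : ℕ∞) : EReal := ((n : ENNReal) : EReal)

theorem f_LU : IsLU fun v => toE (f v) := by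
  classical
  refine ⟨fun _ v => toE (f v), fun _ t => ?_, fun _ => monotone_const, fun _ => tendsto_const_nhds⟩
  have hcase : ∀ v, toE (f v) = if ∃ n, (v : E) (.inr n) ≠ 0 then (1 : EReal) else 3 := by
    intro v
    unfold f toE
    split_ifs
    · simp
    · rfl
  have hopen : IsOpen {v : K.extremePoints ℝ | ∃ n, (v : E) (.inr n) ≠ 0} := by
    have : {v : K.extremePoints ℝ | ∃ n, (v : E) (.inr n) ≠ 0} =
        ⋃ n, {v : K.extremePoints ℝ | (v : E) (.inr n) ≠ 0} := by ext v; simp
    rw [this]
    refine isOpen_iUnion fun n => ?_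
    exact isOpen_ne.preimage ((continuous_apply (.inr n : I)).comp continuous_subtype_val)
  by_cases h1 : (3 : EReal) < t
  · have : {v | toE (f v) < (t : EReal)} = Set.univ := by
      ext v
      simp only [Set.mem_ofPred_eq, Set.mem_univ, iff_true]
      rw [hcase]
      split_ifs
      · exact lt_of_le_of_lt (by norm_num) h1
      · exact h1
    rw [this]; exact isOpen_univ
  · by_cases h2 : (1 : EReal) < t
    · have : {v | toE (f v) < (t : EReal)} = {v : K.extremePoints ℝ | ∃ n, (v : E) (.inr n) ≠ 0} := by
        ext v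
        simp only [Set.mem_ofPred_eq]
        rw [hcase]
        split_ifs with h <;> simp [h, h1, h2]
      rw [this]; exact hopen
    · have : {v | toE (f v) < (t : EReal)} = ∅ := by
        ext v
        simp only [Set.mem_ofPred_eq, Set.mem_empty_iff_false, iff_false]
        rw [hcase]
        split_ifs <;> assumption
      rw [this]; exact isOpen_empty

/-! ### Baire category -/

theorem D_dense : Dense (Set.range d) := by
  classical
  intro z
  rw [mem_closure_iff_seq_limit]
  refine ⟨fun k => d ((Finset.range k).filter fun i => z i = true), fun k => ⟨_, rfl⟩, ?_⟩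
  rw [tendsto_pi_nhds]
  intro i
  apply tendsto_const_nhds.congr'
  filter_upwards [eventually_gt_atTop i] with k hk
  simp only [d, Finset.mem_filter, Finset.mem_range, hk, true_and]
  cases z i <;> simp

theorem D_compl_dense : Dense (Set.range d)ᶜ := by
  have : (Set.range d)ᶜ = ⋂ n, ({d n} : Set Z)ᶜ := by
    ext z
    simp only [Set.mem_compl_iff, Set.mem_range, not_exists, Set.mem_iInter, Set.mem_singleton_iff]
    exact forall_congr' fun n => ⟨fun h h' => h h'.symm, fun h h' => h h'.symm⟩
  rw [this]
  apply dense_iInter_of_isOpen (fun n => isOpen_compl_singleton)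
  intro n z
  by_cases hz : z = d n
  · rw [mem_closure_iff_seq_limit]
    refine ⟨fun k => Function.update z k (!(z k)), fun k => ?_, ?_⟩
    · intro h
      have := congrFun (h.trans hz.symm) k
      simp at this
    · rw [tendsto_pi_nhds]
      intro i
      apply tendsto_const_nhds.congr'
      filter_upwards [eventually_gt_atTop i] with k hk
      rw [Function.update_of_ne (by omega)]
  · exact subset_closure hz

theorem not_Gδ : ¬ IsGδ (Set.range d) := by
  intro h
  have h2 : IsGδ (Set.range d)ᶜ := by
    have : (Set.range d)ᶜ = ⋂ n, ({d n} : Set Z)ᶜ := by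
      ext z
      simp only [Set.mem_compl_iff, Set.mem_range, not_exists, Set.mem_iInter, Set.mem_singleton_iff]
      exact forall_congr' fun n => ⟨fun h h' => h h'.symm, fun h h' => h h'.symm⟩
    rw [this]
    exact IsGδ.iInter fun n => isOpen_compl_singleton.isGδ
  have := D_dense.inter_of_Gδ h h2 D_compl_dense
  rw [Set.inter_compl_self] at this
  have h3 := this.nonempty
  simp at h3

/-- **MP_38292b_an, full negative answer.** -/
theorem result :
    ∃ K : Set ((Finset ℕ ⊕ Finset ℕ) → ℝ), IsMetrizableChoquetSimplex K ∧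
      ∃ f : K.extremePoints ℝ → ℕ∞, (∀ e, 1 ≤ f e) ∧ IsLU (fun e => ((f e : ENNReal) : EReal)) ∧
        (∃ F : K → ℕ∞, IsAdditiveExt K f F) ∧
        ∀ F : K → ℕ∞, IsAdditiveExt K f F → ¬ IsLU (fun v => ((F v : ENNReal) : EReal)) := by
  refine ⟨K, simplex, f, ?_, f_LU, exists_ext simplex f, ?_⟩
  · intro v
    unfold f
    split_ifs
    · exact le_refl _
    · norm_num
  · rintro F hF ⟨G, hG1, hG2, hG3⟩
    apply not_Gδ
    have hphi : Continuous (fun z => (⟨phi z, phi_mem z⟩ : K)) := phi_cont.subtype_mk _
    have : Set.range d = ⋂ k, {z | G k ⟨phi z, phi_mem z⟩ < ((2.5 : ℝ) : EReal)} := by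
      ext z
      simp only [Set.mem_iInter, Set.mem_ofPred_eq]
      constructor
      · rintro ⟨n, rfl⟩ k
        have h1 : G k ⟨phi (d n), phi_mem (d n)⟩ ≤ 2 := by
          have := (hG2 ⟨phi (d n), phi_mem (d n)⟩).ge_of_tendsto (hG3 _) k
          beta_reduce at this
          rw [F_on hF] at this
          exact this
        refine lt_of_le_of_lt h1 ?_
        have h2 : (2 : EReal) = ((2 : ℝ) : EReal) := rfl
        rw [h2]
        exact EReal.coe_lt_coe_iff.2 (by norm_num)
      · intro h
        by_contra hz
        have h3 := hG3 ⟨phi z, phi_mem z⟩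
        beta_reduce at h3
        rw [F_off hF hz] at h3
        have h4 : ((2.5 : ℝ) : EReal) < (((3 : ℕ∞) : ENNReal) : EReal) := by
          have : (((3 : ℕ∞) : ENNReal) : EReal) = ((3 : ℝ) : EReal) := rfl
          rw [this]
          exact EReal.coe_lt_coe_iff.2 (by norm_num)
        obtain ⟨k, hk⟩ := (h3.eventually (lt_mem_nhds h4)).exists
        exact absurd (h k) (not_lt.2 hk.le)
    rw [this]
    exact IsGδ.iInter fun k => ((hG1 k 2.5).preimage hphi).isGδ

end Pool.Agent.Results.MP_38292b_an.NotLU
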